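import Pool.Agent.W528.HE.Stm

set_option autoImplicit false

/-! # HE-EB: embeddings of the algebraic numbers with given values at a root of unity and at `β` -/

namespace Pool.Agent.W588.HE.EB

open Polynomial IntermediateField

/-- the statement over an arbitrary base field -/
theorem gen {F E C : Type} [Field F] [Field E] [Field C] [Algebra F E] [Algebra F C] [IsAlgClosed C]
    (N : ℕ) (μ β : E) (ω : C) (hN : 0 < N) (hμ : IsPrimitiveRoot μ N) (hω : IsPrimitiveRoot ω N)
    (hβ : IsIntegral F β) (hirr : Irreducible (cyclotomic N F⟮β⟯)) (r : C)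
    (hr : aeval r (minpoly F β) = 0) :
    ∃ f : (algebraicClosure F E) →+* C, (∀ x : algebraicClosure F E, (x : E) = μ → f x = ω) ∧
      ∀ x : algebraicClosure F E, (x : E) = β → f x = r := by
  have hint : IsIntegral F μ := (hμ.isIntegral hN).tower_top
  have hμK : μ ∈ algebraicClosure F E := mem_algebraicClosure_iff'.2 hint
  have hβK : β ∈ algebraicClosure F E := mem_algebraicClosure_iff'.2 hβ
  have halg : Algebra.IsAlgebraic F (algebraicClosure F E) := algebraicClosure.isAlgebraic F E
  obtain ⟨μ', hμ'⟩ : ∃ μ' : algebraicClosure F E, μ' = ⟨μ, hμK⟩ := ⟨_, rfl⟩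
  obtain ⟨β', hβ'⟩ : ∃ β' : algebraicClosure F E, β' = ⟨β, hβK⟩ := ⟨_, rfl⟩
  have hμc : (algebraicClosure F E).val μ' = μ := by rw [hμ']; rfl
  have hβc : (algebraicClosure F E).val β' = β := by rw [hβ']; rfl
  have hspl : ∀ s : algebraicClosure F E, IsIntegral F s ∧
      ((minpoly F s).map (algebraMap F C)).Splits := fun s =>
    ⟨(halg.isAlgebraic s).isIntegral, IsAlgClosed.splits _⟩
  have h1 : aeval r (minpoly F β') = 0 := by
    rw [← hr, ← hβc]
    congr 1
    exact (minpoly.algebraMap_eq (A := F) (B := algebraicClosure F E) (B' := E)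
      (algebraMap (algebraicClosure F E) E).injective β').symm
  obtain ⟨φ₀, hφ₀⟩ := IntermediateField.exists_algHom_of_splits_of_aeval hspl h1
  -- transport of irreducibility
  have hmap : (F⟮β'⟯).map (algebraicClosure F E).val = F⟮β⟯ := by
    rw [IntermediateField.adjoin_map, Set.image_singleton, hβc]
  rw [← hmap] at hirr
  have hirr' : Irreducible (cyclotomic N F⟮β'⟯) := by
    have e := (F⟮β'⟯).equivMap (algebraicClosure F E).val
    have h2 : (Polynomial.mapEquiv e.toRingEquiv) (cyclotomic N F⟮β'⟯) =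
        cyclotomic N ((F⟮β'⟯).map (algebraicClosure F E).val) := by
      rw [Polynomial.mapEquiv_apply]
      exact map_cyclotomic N _
    rw [← h2] at hirr
    exact (MulEquiv.irreducible_iff (Polynomial.mapEquiv e.toRingEquiv)).1 hirr
  let _ : Algebra F⟮β'⟯ C := (φ₀.comp (F⟮β'⟯).val).toRingHom.toAlgebra
  have hspl' : ∀ s : algebraicClosure F E, IsIntegral F⟮β'⟯ s ∧
      ((minpoly F⟮β'⟯ s).map (algebraMap F⟮β'⟯ C)).Splits := fun s =>
    ⟨(halg.isAlgebraic s).isIntegral.tower_top, IsAlgClosed.splits _⟩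
  have hμprim : IsPrimitiveRoot μ' N := by
    have : IsPrimitiveRoot ((algebraicClosure F E).val μ') N := by rw [hμc]; exact hμ
    exact IsPrimitiveRoot.of_map_of_injective this (algebraicClosure F E).val.injective
  have h3 : minpoly F⟮β'⟯ μ' = cyclotomic N F⟮β'⟯ := by
    symm
    refine minpoly.eq_of_irreducible_of_monic hirr' ?_ (cyclotomic.monic N _)
    have h4 := hμprim.isRoot_cyclotomic hN
    rw [← map_cyclotomic N (algebraMap F⟮β'⟯ (algebraicClosure F E))] at h4
    rw [aeval_def, ← eval_map]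
    exact h4
  have h5 : aeval ω (minpoly F⟮β'⟯ μ') = 0 := by
    rw [h3]
    have h4 := hω.isRoot_cyclotomic hN
    rw [← map_cyclotomic N (algebraMap F⟮β'⟯ C)] at h4
    rw [aeval_def, ← eval_map]
    exact h4
  obtain ⟨φ, hφ⟩ := IntermediateField.exists_algHom_of_splits_of_aeval hspl' h5
  refine ⟨φ.toRingHom, fun x hx => ?_, fun x hx => ?_⟩
  · have : x = μ' := Subtype.ext (by rw [hx]; exact hμc.symm)
    rw [this]
    exact hφ
  · have : x = β' := Subtype.ext (by rw [hx]; exact hβc.symm)
    rw [this, ← hφ₀]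
    exact φ.commutes (⟨β', mem_adjoin_simple_self F β'⟩ : F⟮β'⟯)

theorem main : Pool.Agent.W528.HE.EB := by
  intro E C _ _ _ _ _ _ N μ β ω hN hμ hω hβ hirr r hr
  exact gen N μ β ω hN hμ hω hβ hirr r hr

end Pool.Agent.W588.HE.EB
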